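import Mathlib

/-!
# Diagram groups of finite semigroup presentations

The diagram group `D(P, w)` is defined as the fundamental group of the Squier complex of `P` at `w`:
the vertex group at `w` of the free groupoid on the one-skeleton of the Squier complex, modulo the
relations given by the squares of the complex.
-/

set_option autoImplicit false

namespace Pool.Agent.Lib.MP_6c430b_al

open CategoryTheory

/-- A finite semigroup presentation over the alphabet `α`: a finite set of relations `u = v`
between non-empty words. -/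
structure Presentation (α : Type) where
  /-- the relations `u = v`, as pairs `(u, v)` -/
  rels : Finset (List α × List α)
  /-- left-hand sides are non-empty -/
  left_ne : ∀ r ∈ rels, r.1 ≠ []
  /-- right-hand sides are non-empty -/
  right_ne : ∀ r ∈ rels, r.2 ≠ []

variable {α : Type}

/-- Vertices of the Squier complex: the non-empty words. -/
def Vertex (_P : Presentation α) : Type := {w : List α // w ≠ []}

/-- Edges of the Squier complex: one (oriented) edge from `a u b` to `a v b` for every relation
`u = v` and all words `a`, `b`. -/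
structure Edge (P : Presentation α) (x y : Vertex P) where
  /-- left context -/
  a : List α
  /-- the relation applied -/
  r : List α × List α
  /-- right context -/
  b : List α
  mem : r ∈ P.rels
  src : x.1 = a ++ r.1 ++ b
  tgt : y.1 = a ++ r.2 ++ b

/-- The one-skeleton of the Squier complex. -/
instance (P : Presentation α) : Quiver (Vertex P) := ⟨fun x y => Edge P x y⟩

/-- The oriented edge `e`, as a morphism of the free groupoid on the one-skeleton. -/
def Edge.hom {P : Presentation α} {x y : Vertex P} (e : Edge P x y) :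
    (Quiver.FreeGroupoid.of (Vertex P)).obj x ⟶ (Quiver.FreeGroupoid.of (Vertex P)).obj y :=
  (Quiver.FreeGroupoid.of (Vertex P)).map e

/-- The four edges bound a square of the Squier complex: for relations `r : u = v`, `s : p = q` of `P`
and words `a`, `b`, `c`, the vertices are `x = a u b p c`, `y = a v b p c`, `z = a u b q c`,
`t = a v b q c`; the edges `e₁ : x → y` and `e₄ : z → t` apply `r`, and the edges `e₂ : y → t` and
`e₃ : x → z` apply `s`. -/
structure IsSquare {P : Presentation α} {x y z t : Vertex P} (e₁ : Edge P x y) (e₂ : Edge P y t)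
    (e₃ : Edge P x z) (e₄ : Edge P z t) (a b c : List α) (r s : List α × List α) : Prop where
  edge₁ : e₁.a = a ∧ e₁.r = r ∧ e₁.b = b ++ s.1 ++ c
  edge₂ : e₂.a = a ++ r.2 ++ b ∧ e₂.r = s ∧ e₂.b = c
  edge₃ : e₃.a = a ++ r.1 ++ b ∧ e₃.r = s ∧ e₃.b = c
  edge₄ : e₄.a = a ∧ e₄.r = r ∧ e₄.b = b ++ s.2 ++ c

/-- The squares of the Squier complex, as relations between morphisms of the free groupoid: the two
ways around a square are identified. -/
inductive SquareRel (P : Presentation α) : HomRel (Quiver.FreeGroupoid (Vertex P))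
  | mk {x y z t : Vertex P} (e₁ : Edge P x y) (e₂ : Edge P y t) (e₃ : Edge P x z)
      (e₄ : Edge P z t) (a b c : List α) (r s : List α × List α)
      (h : IsSquare e₁ e₂ e₃ e₄ a b c r s) :
      SquareRel P (e₁.hom ≫ e₂.hom) (e₃.hom ≫ e₄.hom)

/-- Sanity check: for all relations and words as in the definition, the square exists. -/
theorem exists_square {P : Presentation α} (a b c : List α) (r s : List α × List α)
    (hr : r ∈ P.rels) (hs : s ∈ P.rels) :
    ∃ (x y z t : Vertex P) (e₁ : Edge P x y) (e₂ : Edge P y t) (e₃ : Edge P x z)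
      (e₄ : Edge P z t), IsSquare e₁ e₂ e₃ e₄ a b c r s ∧
      x.1 = a ++ r.1 ++ b ++ s.1 ++ c ∧ y.1 = a ++ r.2 ++ b ++ s.1 ++ c ∧
      z.1 = a ++ r.1 ++ b ++ s.2 ++ c ∧ t.1 = a ++ r.2 ++ b ++ s.2 ++ c := by
  refine ⟨⟨a ++ r.1 ++ b ++ s.1 ++ c, by simp [P.left_ne r hr]⟩,
    ⟨a ++ r.2 ++ b ++ s.1 ++ c, by simp [P.right_ne r hr]⟩,
    ⟨a ++ r.1 ++ b ++ s.2 ++ c, by simp [P.left_ne r hr]⟩,
    ⟨a ++ r.2 ++ b ++ s.2 ++ c, by simp [P.right_ne r hr]⟩,
    ⟨a, r, b ++ s.1 ++ c, hr, by simp, by simp⟩, ⟨a ++ r.2 ++ b, s, c, hs, by simp, by simp⟩,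
    ⟨a ++ r.1 ++ b, s, c, hs, by simp, by simp⟩, ⟨a, r, b ++ s.2 ++ c, hr, by simp, by simp⟩,
    ⟨⟨rfl, rfl, rfl⟩, ⟨rfl, rfl, rfl⟩, ⟨rfl, rfl, rfl⟩, ⟨rfl, rfl, rfl⟩⟩, rfl, rfl, rfl, rfl⟩

/-- The fundamental groupoid of the Squier complex. -/
abbrev SquierGroupoid (P : Presentation α) : Type := CategoryTheory.Quotient (SquareRel P)

/-- A vertex of the Squier complex, as an object of its fundamental groupoid. -/
def base (P : Presentation α) (w : Vertex P) : SquierGroupoid P :=
  (Quotient.functor (SquareRel P)).obj ((Quiver.FreeGroupoid.of (Vertex P)).obj w)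

/-- The diagram group `D(P, w)`: the fundamental group of the Squier complex of `P` at `w`, i.e. the
vertex group (group of loops) at `w` of the fundamental groupoid. Its group structure is the
instance `CategoryTheory.Groupoid.vertexGroup` of Mathlib. -/
abbrev DiagramGroup (P : Presentation α) (w : Vertex P) : Type := (base P w ⟶ base P w)

end Pool.Agent.Lib.MP_6c430b_al
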