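import Pool.Agent.Lib.MP_6c430b_al.Machine

/-!
# Halting and directed cycles
-/

set_option autoImplicit false

namespace Pool.Agent.Lib.MP_6c430b_al

open Turing StateTransition

section

variable {Γ Q : Type} [Inhabited Γ] (δ : Q → Γ → Option (Q × TM0.Stmt Γ)) (h : Bool)

/-! ### Respecting the Turing machine -/

theorem tstep_zero (L : List Γ) (q : Q) (R : List Γ) :
    tstep δ h ⟨L, q, 0, R⟩ = some ⟨L, q, 1, R⟩ := rfl

theorem tstep_one (L : List Γ) (q : Q) (R : List Γ) :
    tstep δ h ⟨L, q, 1, R⟩ = some ⟨L, q, 2, R⟩ := rfl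

theorem tstep_two_nil (L : List Γ) (q : Q) :
    tstep δ h ⟨L, q, 2, []⟩ = some ⟨L, q, 0, [default]⟩ := rfl

theorem reaches_tail {σ : Type} {f : σ → Option σ} {a b c : σ} (h : Reaches f a b)
    (h' : f b = some c) : Reaches f a c :=
  Relation.ReflTransGen.tail h h'

theorem reaches₁_head {σ : Type} {f : σ → Option σ} {a c : σ} (b : σ) (h : f a = some b)
    (h' : Reaches f b c) : Reaches₁ f a c :=
  Relation.TransGen.head' h h'

theorem reach_two (L : List Γ) (q : Q) (R : List Γ) :
    Reaches (tstep δ h) ⟨L, q, 0, R⟩ ⟨L, q, 2, R⟩ :=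
  reaches_tail (reaches_tail Relation.ReflTransGen.refl (tstep_zero δ h L q R))
    (tstep_one δ h L q R)

/-- The relation between Turing machine configurations and normalized configurations. -/
def TrC [Inhabited Q] (a : TM0.Cfg Γ Q) (c : Conf Γ Q) : Prop :=
  ∃ L q x R, c = ⟨L, q, 2, x :: R⟩ ∧
    a = ⟨q, Tape.mk' (ListBlank.mk L) (ListBlank.mk (x :: R))⟩

theorem mk_default : (ListBlank.mk [default] : ListBlank Γ) = ListBlank.mk [] := by
  apply Quotient.sound'
  right
  exact ⟨1, rfl⟩

theorem exists_normal [Inhabited Q] (L : List Γ) (q : Q) (R : List Γ) :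
    ∃ c, TrC (⟨q, Tape.mk' (ListBlank.mk L) (ListBlank.mk R)⟩ : TM0.Cfg Γ Q) c ∧
      Reaches (tstep δ h) ⟨L, q, 0, R⟩ c := by
  cases R with
  | nil =>
    refine ⟨⟨L, q, 2, [default]⟩, ⟨L, q, default, [], rfl, ?_⟩, ?_⟩
    · rw [mk_default]
    · exact (reaches_tail (reach_two δ h L q []) (tstep_two_nil δ h L q)).trans
        (reach_two δ h L q [default])
  | cons x R => exact ⟨⟨L, q, 2, x :: R⟩, ⟨L, q, x, R, rfl, rfl⟩, reach_two δ h L q (x :: R)⟩

theorem respects [Inhabited Q] :
    Respects (TM0.step (δ : TM0.Machine Γ Q)) (tstep δ false) TrC := by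
  rintro a c ⟨L, q, x, R, rfl, rfl⟩
  have hstep : TM0.step (δ : TM0.Machine Γ Q) ⟨q, Tape.mk' (ListBlank.mk L)
      (ListBlank.mk (x :: R))⟩ = (δ q x).map fun p => ⟨p.1, match p.2 with
        | TM0.Stmt.move d => (Tape.mk' (ListBlank.mk L) (ListBlank.mk (x :: R))).move d
        | TM0.Stmt.write a => (Tape.mk' (ListBlank.mk L) (ListBlank.mk (x :: R))).write a⟩ := by
    unfold TM0.step
    rfl
  rw [hstep]
  rcases hδ : δ q x with _ | ⟨q', (⟨⟨⟩⟩ | b)⟩
  · simp only [Option.map_none, tstep, hδ]
    simp
  · -- left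
    simp only [Option.map_some, Tape.move_left_mk']
    cases L with
    | nil =>
      obtain ⟨c, hc, hr⟩ := exists_normal δ false ([] : List Γ) q' (default :: x :: R)
      refine ⟨c, ?_, reaches₁_head ⟨[], q', 0, default :: x :: R⟩ ?_ hr⟩
      · have e1 : (ListBlank.mk ([] : List Γ)).tail = ListBlank.mk [] := by
          rw [ListBlank.tail_mk]; rfl
        have e2 : ListBlank.cons (ListBlank.mk ([] : List Γ)).head (ListBlank.mk (x :: R))
            = ListBlank.mk (default :: x :: R) := by
          rw [ListBlank.head_mk, ListBlank.cons_mk]; rfl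
        rw [e1, e2]
        exact hc
      · simp [tstep, hδ]
    | cons l L =>
      obtain ⟨c, hc, hr⟩ := exists_normal δ false L q' (l :: x :: R)
      refine ⟨c, ?_, reaches₁_head ⟨L, q', 0, l :: x :: R⟩ ?_ hr⟩
      · have e1 : (ListBlank.mk (l :: L)).tail = ListBlank.mk L := by
          rw [ListBlank.tail_mk]; rfl
        have e2 : ListBlank.cons (ListBlank.mk (l :: L)).head (ListBlank.mk (x :: R))
            = ListBlank.mk (l :: x :: R) := by
          rw [ListBlank.head_mk, ListBlank.cons_mk]; rfl
        rw [e1, e2]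
        exact hc
      · simp [tstep, hδ]
  · -- right
    simp only [Option.map_some, Tape.move_right_mk']
    obtain ⟨c, hc, hr⟩ := exists_normal δ false (x :: L) q' R
    refine ⟨c, ?_, reaches₁_head ⟨x :: L, q', 0, R⟩ ?_ hr⟩
    · have e1 : (ListBlank.mk (x :: R)).tail = ListBlank.mk R := by
        rw [ListBlank.tail_mk]; rfl
      have e2 : ListBlank.cons (ListBlank.mk (x :: R)).head (ListBlank.mk L)
          = ListBlank.mk (x :: L) := by
        rw [ListBlank.head_mk, ListBlank.cons_mk]; rfl
      rw [e1, e2]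
      exact hc
    · simp [tstep, hδ]
  · -- write
    simp only [Option.map_some]
    obtain ⟨c, hc, hr⟩ := exists_normal δ false L q' (b :: R)
    refine ⟨c, ?_, reaches₁_head ⟨L, q', 0, b :: R⟩ ?_ hr⟩
    · rw [← ListBlank.cons_mk, Tape.write_mk', ListBlank.cons_mk]
      exact hc
    · simp [tstep, hδ]

/-! ### Halting versus cycling -/

theorem tstep_mono {a b : Conf Γ Q} (hab : tstep δ false a = some b) :
    tstep δ true a = some b := by
  obtain ⟨L, q, i, R⟩ := a
  match i with
  | 0 => exact hab
  | 1 => exact hab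
  | 2 =>
    cases R with
    | nil => exact hab
    | cons x R =>
      simp only [tstep] at hab ⊢
      rcases hδ : δ q x with _ | ⟨q', (⟨⟨⟩⟩ | b)⟩ <;> rw [hδ] at hab
      · simp at hab
      · exact hab
      · exact hab
      · exact hab

theorem tstep_none {a : Conf Γ Q} (ha : tstep δ false a = none) :
    Reaches₁ (tstep δ true) a a := by
  obtain ⟨L, q, i, R⟩ := a
  match i with
  | 0 => simp [tstep] at ha
  | 1 => simp [tstep] at ha
  | 2 =>
    cases R with
    | nil => simp [tstep] at ha
    | cons x R =>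
      have hδ : δ q x = none := by
        rcases hδ : δ q x with _ | ⟨q', (⟨⟨⟩⟩ | b)⟩
        · rfl
        · cases L <;> simp [tstep, hδ] at ha
        · simp [tstep, hδ] at ha
        · simp [tstep, hδ] at ha
      refine reaches₁_head ⟨L, q, 0, x :: R⟩ ?_ (reach_two δ true L q (x :: R))
      simp [tstep, hδ]

/-- The orbit of `c` eventually cycles. -/
def Per (c : Conf Γ Q) : Prop :=
  ∃ d, Reaches (tstep δ h) c d ∧ Reaches₁ (tstep δ h) d d

theorem cycle_forward {σ : Type} {f : σ → Option σ} {d c : σ} (hd : Reaches₁ f d d)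
    (hdc : Reaches f d c) : Reaches₁ f c c := by
  induction hdc with
  | refl => exact hd
  | tail _ hbc ih =>
    exact Relation.TransGen.tail' (reaches₁_fwd ih hbc) hbc

theorem halts_iff (c₀ : Conf Γ Q) :
    (eval (tstep δ false) c₀).Dom ↔ Per δ true c₀ ∧ ¬ Per δ false c₀ := by
  constructor
  · intro hdom
    obtain ⟨c, hc⟩ := Part.dom_iff_mem.1 hdom
    rw [mem_eval] at hc
    obtain ⟨hc, hn⟩ := hc
    refine ⟨⟨c, ?_, tstep_none δ hn⟩, ?_⟩
    · clear hn
      induction hc with
      | refl => exact Relation.ReflTransGen.refl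
      | tail _ hbc ih => exact ih.tail (tstep_mono δ hbc)
    · rintro ⟨d, hd, hdd⟩
      have hdc : Reaches (tstep δ false) d c := by
        rcases reaches_total hd hc with h1 | h1
        · exact h1
        · rcases Relation.ReflTransGen.cases_head h1 with h2 | ⟨e, h2, _⟩
          · rw [h2]; exact Relation.ReflTransGen.refl
          · have h3 : tstep δ false c = some e := h2
            rw [hn] at h3
            simp at h3
      have hcc := cycle_forward hdd hdc
      rw [Reaches₁, Relation.TransGen.head'_iff] at hcc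
      obtain ⟨e, h2, _⟩ := hcc
      have h3 : tstep δ false c = some e := h2
      rw [hn] at h3
      simp at h3
  · rintro ⟨⟨d, hd, hdd⟩, hnp⟩
    by_contra hnd
    have hne : ∀ c, Reaches (tstep δ false) c₀ c → tstep δ false c = tstep δ true c := by
      intro c hc
      rcases hs : tstep δ false c with _ | b
      · exact absurd (Part.dom_iff_mem.2 ⟨c, mem_eval.2 ⟨hc, hs⟩⟩) hnd
      · exact (tstep_mono δ hs).symm
    have hreach : ∀ c, Reaches (tstep δ true) c₀ c → Reaches (tstep δ false) c₀ c := by
      intro c hc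
      induction hc with
      | refl => exact Relation.ReflTransGen.refl
      | tail _ hbc ih =>
        refine ih.tail ?_
        change tstep δ false _ = some _
        rw [hne _ ih]
        exact hbc
    have hd' := hreach d hd
    refine hnp ⟨d, hd', ?_⟩
    have : ∀ c, Reaches₁ (tstep δ true) d c → Reaches₁ (tstep δ false) d c := by
      intro c hc
      induction hc with
      | single hdb =>
        refine Relation.TransGen.single ?_
        change tstep δ false _ = some _
        rw [hne _ hd']
        exact hdb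
      | tail _ hbc ih =>
        refine ih.tail ?_
        change tstep δ false _ = some _
        rw [hne _ (hd'.trans ih.to_reflTransGen)]
        exact hbc
    exact this d hdd

/-! ### Diagram groups -/

variable {β : Type} (e : Letter Γ Q ≃ β)

omit [Inhabited Γ] in
theorem word_inj : Function.Injective (word : Conf Γ Q → List (Letter Γ Q)) := by
  rintro ⟨L, q, i, R⟩ ⟨L', q', i', R'⟩ heq
  have h0 : ∀ l : List Γ,
      (Letter.lend :: (l.map (Letter.sym : Γ → Letter Γ Q))).countP Letter.isSt = 0 := by
    intro l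
    rw [List.countP_eq_zero]
    intro x hx
    rcases List.mem_cons.1 hx with rfl | hx
    · simp [Letter.isSt]
    · obtain ⟨a, _, rfl⟩ := List.mem_map.1 hx
      simp [Letter.isSt]
  have := split_unique Letter.isSt (Letter.lend :: L.reverse.map Letter.sym)
    (Letter.lend :: L'.reverse.map Letter.sym) (.st q i) (.st q' i') _ _ rfl rfl (h0 _) (h0 _)
    (by simpa [word] using heq)
  obtain ⟨h1, h2, h3⟩ := this
  have hsym : Function.Injective (Letter.sym : Γ → Letter Γ Q) := by
    intro a b hab
    exact Letter.sym.inj hab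
  simp only [List.cons.injEq, true_and] at h1
  have h4 := List.reverse_injective (List.map_injective_iff.2 hsym h1)
  have h5 := List.append_inj' h3 rfl
  have h6 := List.map_injective_iff.2 hsym h5.1
  obtain ⟨rfl, rfl⟩ := Letter.st.inj h2
  subst h4
  subst h6
  rfl

theorem vert_inj [Finite Γ] [Finite Q] : Function.Injective (vert δ h e) := by
  intro c c' heq
  have := congrArg Subtype.val heq
  exact word_inj (List.map_injective_iff.2 e.injective this)

theorem reach_vert [Finite Γ] [Finite Q] (c : Conf Γ Q) (y : Vertex (pres δ h e)) :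
    Relation.ReflTransGen (Step (pres δ h e)) (vert δ h e c) y ↔
      ∃ c', Reaches (tstep δ h) c c' ∧ y = vert δ h e c' := by
  constructor
  · intro hy
    induction hy with
    | refl => exact ⟨c, Relation.ReflTransGen.refl, rfl⟩
    | tail _ hbc ih =>
      obtain ⟨c', hc', rfl⟩ := ih
      obtain ⟨c'', hc'', rfl⟩ := (step_vert δ h e c' _).1 hbc
      exact ⟨c'', hc'.tail hc'', rfl⟩
  · rintro ⟨c', hc', rfl⟩
    induction hc' with
    | refl => exact Relation.ReflTransGen.refl
    | tail _ hbc ih => exact ih.tail ((step_vert δ h e _ _).2 ⟨_, hbc, rfl⟩)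

theorem reach₁_vert [Finite Γ] [Finite Q] (c : Conf Γ Q) (y : Vertex (pres δ h e)) :
    Relation.TransGen (Step (pres δ h e)) (vert δ h e c) y ↔
      ∃ c', Reaches₁ (tstep δ h) c c' ∧ y = vert δ h e c' := by
  rw [Relation.TransGen.head'_iff]
  constructor
  · rintro ⟨b, hb, hby⟩
    obtain ⟨c', hc', rfl⟩ := (step_vert δ h e c _).1 hb
    obtain ⟨c'', hc'', rfl⟩ := (reach_vert δ h e c' _).1 hby
    exact ⟨c'', Relation.TransGen.head' hc' hc'', rfl⟩
  · rintro ⟨c', hc', rfl⟩
    rw [Reaches₁, Relation.TransGen.head'_iff] at hc'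
    obtain ⟨b, hb, hbc⟩ := hc'
    exact ⟨vert δ h e b, (step_vert δ h e c _).2 ⟨b, hb, rfl⟩,
      (reach_vert δ h e b _).2 ⟨c', hbc, rfl⟩⟩

theorem nontrivial_iff_per [Finite Γ] [Finite Q] (c : Conf Γ Q) :
    Nontrivial (DiagramGroup (pres δ h e) (vert δ h e c)) ↔ Per δ h c := by
  rw [nontrivial_iff (pres_oneHead δ h e) (vert δ h e c) (countP_word e c)]
  constructor
  · rintro ⟨x, hx, hxx⟩
    obtain ⟨d, hd, rfl⟩ := (reach_vert δ h e c _).1 hx
    obtain ⟨d', hd', heq⟩ := (reach₁_vert δ h e d _).1 hxx
    obtain rfl := vert_inj δ h e heq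
    exact ⟨d, hd, hd'⟩
  · rintro ⟨d, hd, hdd⟩
    exact ⟨vert δ h e d, (reach_vert δ h e c _).2 ⟨d, hd, rfl⟩,
      (reach₁_vert δ h e d _).2 ⟨d, hdd, rfl⟩⟩

/-- The machine halts if and only if the diagram group over the second presentation is non-trivial
and the diagram group over the first one is trivial. -/
theorem halts_iff_nontrivial [Finite Γ] [Finite Q] (c : Conf Γ Q) :
    (eval (tstep δ false) c).Dom ↔
      Nontrivial (DiagramGroup (pres δ true e) (vert δ true e c)) ∧
      ¬ Nontrivial (DiagramGroup (pres δ false e) (vert δ false e c)) := by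
  rw [nontrivial_iff_per, nontrivial_iff_per, halts_iff]

end

end Pool.Agent.Lib.MP_6c430b_al
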