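import Pool.Agent.Lib.MP_6c430b_al.Defs

/-!
# Presentations whose configurations carry exactly one head

If every side of every relation contains exactly one head letter and forward rewriting of words with
exactly one head is deterministic, then the diagram group at such a word is non-trivial if and only if
the forward orbit of the word is eventually periodic.
-/

set_option autoImplicit false

namespace Pool.Agent.Lib.MP_6c430b_al

open CategoryTheory

variable {α : Type} {P : Presentation α}

/-- Forward rewriting by one relation. -/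
def Step (P : Presentation α) (x y : Vertex P) : Prop := Nonempty (Edge P x y)

/-- One-head presentations with deterministic forward rewriting. -/
structure OneHead (P : Presentation α) (isSt : α → Bool) : Prop where
  left : ∀ r ∈ P.rels, r.1.countP isSt = 1
  right : ∀ r ∈ P.rels, r.2.countP isSt = 1
  det : ∀ (a : List α) (r : List α × List α) (b a' : List α) (r' : List α × List α) (b' : List α),
    r ∈ P.rels → r' ∈ P.rels → a ++ r.1 ++ b = a' ++ r'.1 ++ b' →
    (a ++ r.1 ++ b).countP isSt = 1 → a = a' ∧ r = r' ∧ b = b'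

theorem OneHead.edge_unique {isSt : α → Bool} (h : OneHead P isSt) {x y y' : Vertex P}
    (hx : x.1.countP isSt = 1) (e : Edge P x y) (e' : Edge P x y') :
    (⟨y, e⟩ : Σ y, Edge P x y) = ⟨y', e'⟩ := by
  obtain ⟨a, r, b, mem, src, tgt⟩ := e
  obtain ⟨a', r', b', mem', src', tgt'⟩ := e'
  obtain ⟨rfl, rfl, rfl⟩ := h.det a r b a' r' b' mem mem' (src ▸ src') (src ▸ hx)
  have : y = y' := Subtype.ext (tgt.trans tgt'.symm)
  subst this
  rfl

theorem OneHead.countP_edge {isSt : α → Bool} (h : OneHead P isSt) {x y : Vertex P}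
    (e : Edge P x y) : x.1.countP isSt = y.1.countP isSt := by
  rw [e.src, e.tgt]
  simp only [List.countP_append, h.left _ e.mem, h.right _ e.mem]

/-- The class of an edge in the fundamental groupoid. -/
def emap {x y : Vertex P} (e : Edge P x y) : base P x ⟶ base P y :=
  (Quotient.functor (SquareRel P)).map e.hom

/-! ### The counting functor -/

open Classical in
/-- Counts the traversals of the forward edges starting at `x₀`. -/
noncomputable def countPre (P : Presentation α) (x₀ : Vertex P) :
    Vertex P ⥤q SingleObj (Multiplicative ℤ) where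
  obj _ := SingleObj.star _
  map {x _} _ := if x = x₀ then Multiplicative.ofAdd (1 : ℤ) else 1

theorem lift_map_hom (x₀ : Vertex P) {x y : Vertex P} (e : Edge P x y) :
    (Quiver.FreeGroupoid.lift (countPre P x₀)).map e.hom = (countPre P x₀).map e := by
  exact Category.id_comp ((countPre P x₀).map e)

theorem count_square {isSt : α → Bool} (h : OneHead P isSt) (x₀ : Vertex P)
    (hx₀ : x₀.1.countP isSt = 1)
    (X Y : Quiver.FreeGroupoid (Vertex P)) (f₁ f₂ : X ⟶ Y) (hf : SquareRel P f₁ f₂) :
    (Quiver.FreeGroupoid.lift (countPre P x₀)).map f₁ =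
      (Quiver.FreeGroupoid.lift (countPre P x₀)).map f₂ := by
  cases hf with
  | @mk x y z t e₁ e₂ e₃ e₄ a b c r s hsq =>
    obtain ⟨⟨ha₁, hr₁, hb₁⟩, ⟨ha₂, hr₂, hb₂⟩, ⟨ha₃, hr₃, hb₃⟩, ⟨ha₄, hr₄, hb₄⟩⟩ := hsq
    have hr : r ∈ P.rels := hr₁ ▸ e₁.mem
    have hs : s ∈ P.rels := hr₂ ▸ e₂.mem
    have nx : x ≠ x₀ := by
      rintro rfl
      rw [e₁.src, ha₁, hr₁, hb₁] at hx₀
      simp only [List.countP_append, h.left _ hr, h.left _ hs] at hx₀
      omega
    have ny : y ≠ x₀ := by
      rintro rfl
      rw [e₂.src, ha₂, hr₂, hb₂] at hx₀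
      simp only [List.countP_append, h.right _ hr, h.left _ hs] at hx₀
      omega
    have nz : z ≠ x₀ := by
      rintro rfl
      rw [e₄.src, ha₄, hr₄, hb₄] at hx₀
      simp only [List.countP_append, h.left _ hr, h.right _ hs] at hx₀
      omega
    rw [Functor.map_comp, Functor.map_comp, lift_map_hom, lift_map_hom, lift_map_hom,
      lift_map_hom]
    simp only [countPre, if_neg nx, if_neg ny, if_neg nz]

/-- The counting functor on the fundamental groupoid. -/
noncomputable def countFun {isSt : α → Bool} (h : OneHead P isSt) (x₀ : Vertex P)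
    (hx₀ : x₀.1.countP isSt = 1) : SquierGroupoid P ⥤ SingleObj (Multiplicative ℤ) :=
  CategoryTheory.Quotient.lift _ (Quiver.FreeGroupoid.lift (countPre P x₀))
    (count_square h x₀ hx₀)

theorem countFun_emap {isSt : α → Bool} (h : OneHead P isSt) (x₀ : Vertex P)
    (hx₀ : x₀.1.countP isSt = 1) {x y : Vertex P} (e : Edge P x y) :
    (countFun h x₀ hx₀).map (emap e) = (countPre P x₀).map e :=
  lift_map_hom x₀ e

/-- The value of the counting functor, as an integer. -/
noncomputable def cnt {isSt : α → Bool} (h : OneHead P isSt) (x₀ : Vertex P)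
    (hx₀ : x₀.1.countP isSt = 1) {X Y : SquierGroupoid P} (f : X ⟶ Y) : ℤ :=
  Multiplicative.toAdd ((countFun h x₀ hx₀).map f : Multiplicative ℤ)

theorem cnt_comp {isSt : α → Bool} (h : OneHead P isSt) (x₀ : Vertex P)
    (hx₀ : x₀.1.countP isSt = 1) {X Y Z : SquierGroupoid P} (f : X ⟶ Y) (g : Y ⟶ Z) :
    cnt h x₀ hx₀ (f ≫ g) = cnt h x₀ hx₀ f + cnt h x₀ hx₀ g := by
  unfold cnt
  rw [Functor.map_comp, SingleObj.comp_as_mul, toAdd_mul, add_comm]

theorem cnt_id {isSt : α → Bool} (h : OneHead P isSt) (x₀ : Vertex P)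
    (hx₀ : x₀.1.countP isSt = 1) (X : SquierGroupoid P) :
    cnt h x₀ hx₀ (𝟙 X) = 0 := by
  unfold cnt
  rw [CategoryTheory.Functor.map_id]
  rfl

theorem cnt_emap_self {isSt : α → Bool} (h : OneHead P isSt) (x₀ : Vertex P)
    (hx₀ : x₀.1.countP isSt = 1) {y : Vertex P} (e : Edge P x₀ y) :
    cnt h x₀ hx₀ (emap e) = 1 := by
  unfold cnt
  rw [countFun_emap]
  simp [countPre]

theorem cnt_emap_nonneg {isSt : α → Bool} (h : OneHead P isSt) (x₀ : Vertex P)
    (hx₀ : x₀.1.countP isSt = 1) {x y : Vertex P} (e : Edge P x y) :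
    0 ≤ cnt h x₀ hx₀ (emap e) := by
  unfold cnt
  rw [countFun_emap]
  unfold countPre
  simp only
  split_ifs
  · simp
  · exact le_refl (0 : ℤ)

theorem exists_nonneg {isSt : α → Bool} (h : OneHead P isSt) (x₀ : Vertex P)
    (hx₀ : x₀.1.countP isSt = 1) {x y : Vertex P} (hxy : Relation.ReflTransGen (Step P) x y) :
    ∃ m : base P x ⟶ base P y, 0 ≤ cnt h x₀ hx₀ m := by
  induction hxy with
  | refl => exact ⟨𝟙 _, (cnt_id h x₀ hx₀ _).ge⟩
  | tail _ hbc ih =>
    obtain ⟨m, hm⟩ := ih
    obtain ⟨e⟩ := hbc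
    exact ⟨m ≫ emap e, by rw [cnt_comp]; exact add_nonneg hm (cnt_emap_nonneg h x₀ hx₀ e)⟩

/-- A directed cycle through a one-head word gives a non-trivial diagram group there. -/
theorem nontrivial_of_cycle {isSt : α → Bool} (h : OneHead P isSt) (x : Vertex P)
    (hx : x.1.countP isSt = 1) (hc : Relation.TransGen (Step P) x x) :
    ∃ m : DiagramGroup P x, m ≠ 𝟙 _ := by
  rw [Relation.TransGen.head'_iff] at hc
  obtain ⟨y, ⟨e⟩, hy⟩ := hc
  obtain ⟨m, hm⟩ := exists_nonneg h x hx hy
  refine ⟨emap e ≫ m, fun heq => ?_⟩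
  have h1 := congrArg (cnt h x hx) heq
  rw [cnt_comp, cnt_emap_self, cnt_id] at h1
  omega

/-- A path of forward edges gives a morphism. -/
theorem exists_mor {x y : Vertex P} (hxy : Relation.ReflTransGen (Step P) x y) :
    Nonempty (base P x ⟶ base P y) := by
  induction hxy with
  | refl => exact ⟨𝟙 _⟩
  | tail _ hbc ih =>
    obtain ⟨m⟩ := ih
    obtain ⟨e⟩ := hbc
    exact ⟨m ≫ emap e⟩

theorem nontrivial_of_reach_cycle {isSt : α → Bool} (h : OneHead P isSt) (w x : Vertex P)
    (hx : x.1.countP isSt = 1) (hwx : Relation.ReflTransGen (Step P) w x)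
    (hc : Relation.TransGen (Step P) x x) : Nontrivial (DiagramGroup P w) := by
  obtain ⟨m, hm⟩ := nontrivial_of_cycle h x hx hc
  obtain ⟨p⟩ := exists_mor hwx
  refine ⟨⟨p ≫ m ≫ inv p, 𝟙 _, fun heq => hm ?_⟩⟩
  have h1 : p ≫ m = p := by
    have := congrArg (fun q => q ≫ p) heq
    simpa using this
  calc m = inv p ≫ p ≫ m := by simp
    _ = 𝟙 _ := by rw [h1]; simp

/-! ### Forward paths -/

/-- `Fwd n x z m`: the morphism `m` is the class of a forward path with `n` edges. -/
inductive Fwd : ℕ → (x z : Vertex P) → (base P x ⟶ base P z) → Prop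
  | nil (x : Vertex P) : Fwd 0 x x (𝟙 _)
  | cons {n : ℕ} {x y z : Vertex P} (e : Edge P x y) {m : base P y ⟶ base P z} :
      Fwd n y z m → Fwd (n + 1) x z (emap e ≫ m)

theorem Fwd.snoc {n : ℕ} {x y z : Vertex P} {m : base P x ⟶ base P y} (h : Fwd n x y m)
    (e : Edge P y z) : Fwd (n + 1) x z (m ≫ emap e) := by
  induction h with
  | nil x =>
    rw [Category.id_comp, ← Category.comp_id (emap e)]
    exact Fwd.cons e (Fwd.nil _)
  | cons e' _ ih =>
    rw [Category.assoc]
    exact Fwd.cons e' (ih e)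

theorem Fwd.reach {n : ℕ} {x z : Vertex P} {m : base P x ⟶ base P z} (h : Fwd n x z m) :
    Relation.ReflTransGen (Step P) x z := by
  induction h with
  | nil x => exact Relation.ReflTransGen.refl
  | cons e _ ih => exact Relation.ReflTransGen.head ⟨e⟩ ih

theorem Fwd.reach_trans {n : ℕ} {x z : Vertex P} {m : base P x ⟶ base P z}
    (h : Fwd (n + 1) x z m) : Relation.TransGen (Step P) x z := by
  cases h with
  | cons e h' => exact Relation.TransGen.head' ⟨e⟩ h'.reach

/-- Two forward paths from the same one-head word: one extends the other. -/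
theorem Fwd.extend {isSt : α → Bool} (hP : OneHead P isSt) {i : ℕ} {x z : Vertex P}
    {f : base P x ⟶ base P z} (hf : Fwd i x z f) :
    ∀ {k : ℕ} {z' : Vertex P} {g : base P x ⟶ base P z'}, Fwd (i + k) x z' g →
      x.1.countP isSt = 1 → ∃ m : base P z ⟶ base P z', Fwd k z z' m ∧ g = f ≫ m := by
  induction hf with
  | nil x =>
    intro k z' g hg _
    rw [Nat.zero_add] at hg
    exact ⟨g, hg, (Category.id_comp g).symm⟩
  | @cons n x y z e m hm ih =>
    intro k z' g hg hx
    have h1 : n + 1 + k = (n + k) + 1 := by omega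
    rw [h1] at hg
    cases hg with
    | @cons _ _ y' _ e' m' hm' =>
      have hu := hP.edge_unique hx e e'
      obtain ⟨rfl, hu⟩ := Sigma.mk.inj_iff.1 hu
      have hu := eq_of_heq hu
      subst hu
      obtain ⟨m'', h2, h3⟩ := ih hm' ((hP.countP_edge e).symm.trans hx)
      exact ⟨m'', h2, by rw [h3, Category.assoc]⟩


/-- The class of an edge-path (with forward and backward edges) in the fundamental groupoid. -/
def cls {x y : Quiver.Symmetrify (Vertex P)}
    (p : Quiver.Path (V := Quiver.Symmetrify (Vertex P)) x y) :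
    base P x ⟶ base P y :=
  (CategoryTheory.Quotient.functor (SquareRel P)).map
    (X := (Quiver.FreeGroupoid.of (Vertex P)).obj x)
    (Y := (Quiver.FreeGroupoid.of (Vertex P)).obj y) (Quot.mk _ p)

theorem cls_nil (x : Quiver.Symmetrify (Vertex P)) :
    cls (P := P) (Quiver.Path.nil (V := Quiver.Symmetrify (Vertex P)) (a := x)) = 𝟙 _ := rfl

theorem cls_cons_inl {x : Quiver.Symmetrify (Vertex P)} {y z : Vertex P}
    (p : Quiver.Path (V := Quiver.Symmetrify (Vertex P)) x y) (e : Edge P y z) :
    cls (P := P) (Quiver.Path.cons (V := Quiver.Symmetrify (Vertex P)) (c := z) p (Sum.inl e))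
      = cls p ≫ emap e := rfl

theorem cls_cons_inr {x : Quiver.Symmetrify (Vertex P)} {y z : Vertex P}
    (p : Quiver.Path (V := Quiver.Symmetrify (Vertex P)) x y) (e : Edge P z y) :
    cls (P := P) (Quiver.Path.cons (V := Quiver.Symmetrify (Vertex P)) (c := z) p (Sum.inr e))
      = cls p ≫ Groupoid.inv (emap e) := rfl

/-- Morphisms generated by the edges and their inverses. -/
inductive Gen : (x y : Vertex P) → (base P x ⟶ base P y) → Prop
  | nil (x : Vertex P) : Gen x x (𝟙 _)
  | pos {x y z : Vertex P} {m : base P x ⟶ base P y} (h : Gen x y m) (e : Edge P y z) :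
      Gen x z (m ≫ emap e)
  | neg {x y z : Vertex P} {m : base P x ⟶ base P y} (h : Gen x y m) (e : Edge P z y) :
      Gen x z (m ≫ Groupoid.inv (emap e))

theorem gen_cls {x y : Quiver.Symmetrify (Vertex P)}
    (p : Quiver.Path (V := Quiver.Symmetrify (Vertex P)) x y) :
    Gen (P := P) x y (cls p) := by
  induction p with
  | nil => exact Gen.nil _
  | @cons y y' p e ih =>
    rcases e with e | e
    · exact Gen.pos ih e
    · exact Gen.neg ih e

theorem gen_all {x y : Vertex P} (m : base P x ⟶ base P y) : Gen x y m := by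
  obtain ⟨m', rfl⟩ := Quot.exists_rep m
  obtain ⟨p, rfl⟩ := Quot.exists_rep m'
  exact gen_cls p

/-- Every path starting at a one-head word is homotopic to a forward path followed by a backward
path. -/
theorem normal_form {isSt : α → Bool} (hP : OneHead P isSt) {w y : Vertex P}
    {m : base P w ⟶ base P y} (hm : Gen w y m) (hw : w.1.countP isSt = 1) :
    y.1.countP isSt = 1 ∧
    ∃ (z : Vertex P) (i j : ℕ) (f : base P w ⟶ base P z) (g : base P y ⟶ base P z),
      Fwd i w z f ∧ Fwd j y z g ∧ m = f ≫ Groupoid.inv g := by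
  induction hm with
  | nil =>
    refine ⟨hw, w, 0, 0, 𝟙 _, 𝟙 _, Fwd.nil w, Fwd.nil w, ?_⟩
    rw [Groupoid.inv_eq_inv]
    simp
  | @pos y y' m _ e ih =>
    obtain ⟨hy, z, i, j, f, g, hf, hg, rfl⟩ := ih
    refine ⟨(hP.countP_edge e).symm.trans hy, ?_⟩
    cases hg with
    | nil _ =>
      refine ⟨y', i + 1, 0, f ≫ emap e, 𝟙 _, hf.snoc e, Fwd.nil _, ?_⟩
      simp only [Groupoid.inv_eq_inv, IsIso.inv_id, Category.comp_id]
    | @cons n _ y'' _ e' m' hm' =>
      have hu := hP.edge_unique hy e e'
      obtain ⟨rfl, hu⟩ := Sigma.mk.inj_iff.1 hu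
      have hu := eq_of_heq hu
      subst hu
      refine ⟨z, i, n, f, m', hf, hm', ?_⟩
      simp only [Groupoid.inv_eq_inv, IsIso.inv_comp, Category.assoc, IsIso.inv_hom_id,
        Category.comp_id]
  | @neg y y' m _ e ih =>
    obtain ⟨hy, z, i, j, f, g, hf, hg, rfl⟩ := ih
    refine ⟨(hP.countP_edge e).trans hy, z, i, j + 1, f, emap e ≫ g, hf, Fwd.cons e hg, ?_⟩
    simp only [Groupoid.inv_eq_inv, IsIso.inv_comp, Category.assoc]

/-- If the forward orbit of a one-head word never closes up, then its diagram group is trivial. -/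
theorem trivial_of_no_cycle {isSt : α → Bool} (hP : OneHead P isSt) (w : Vertex P)
    (hw : w.1.countP isSt = 1)
    (hc : ∀ x, Relation.ReflTransGen (Step P) w x → ¬ Relation.TransGen (Step P) x x)
    (m : DiagramGroup P w) : m = 𝟙 _ := by
  obtain ⟨_, z, i, j, f, g, hf, hg, rfl⟩ := normal_form hP (gen_all m) hw
  have key : ∀ (i k : ℕ) (z : Vertex P) (f g : base P w ⟶ base P z),
      Fwd i w z f → Fwd (i + k) w z g → f = g := by
    intro i k z f g hf hg
    obtain ⟨h, hh, rfl⟩ := Fwd.extend hP hf hg hw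
    cases k with
    | zero =>
      cases hh with
      | nil _ => rw [Category.comp_id]
    | succ k => exact absurd hh.reach_trans (hc z hf.reach)
  have hfg : f = g := by
    rcases Nat.le_total i j with hij | hij
    · obtain ⟨k, rfl⟩ := Nat.exists_eq_add_of_le hij
      exact key i k z f g hf hg
    · obtain ⟨k, rfl⟩ := Nat.exists_eq_add_of_le hij
      exact (key j k z g f hg hf).symm
  rw [hfg, Groupoid.inv_eq_inv, IsIso.hom_inv_id]

/-- For one-head presentations: the diagram group is non-trivial if and only if the forward orbit is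
eventually periodic. -/
theorem nontrivial_iff {isSt : α → Bool} (hP : OneHead P isSt) (w : Vertex P)
    (hw : w.1.countP isSt = 1) :
    Nontrivial (DiagramGroup P w) ↔
      ∃ x, Relation.ReflTransGen (Step P) w x ∧ Relation.TransGen (Step P) x x := by
  constructor
  · intro hn
    by_contra hcon
    push Not at hcon
    have := trivial_of_no_cycle hP w hw hcon
    obtain ⟨a, b, hab⟩ := hn
    exact hab ((this a).trans (this b).symm)
  · rintro ⟨x, hwx, hxx⟩
    refine nontrivial_of_reach_cycle hP w x ?_ hwx hxx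
    clear hxx
    induction hwx with
    | refl => exact hw
    | tail _ hbc ih =>
      obtain ⟨e⟩ := hbc
      exact (hP.countP_edge e).symm.trans ih

end Pool.Agent.Lib.MP_6c430b_al
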