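import Pool.Agent.Lib.MP_6c430b_al.Loops

/-!
# Simulating a Turing machine by a one-head semigroup presentation
-/

set_option autoImplicit false

namespace Pool.Agent.Lib.MP_6c430b_al

open Turing

/-- Letters: tape symbols, heads (a state and a phase), and two end markers. -/
inductive Letter (Γ Q : Type)
  | sym (a : Γ) : Letter Γ Q
  | st (q : Q) (i : Fin 3) : Letter Γ Q
  | lend : Letter Γ Q
  | rend : Letter Γ Q

section

variable {Γ Q : Type}

/-- An equivalence used to see that there are finitely many letters. -/
def Letter.equivSum : Letter Γ Q ≃ (Γ ⊕ (Q × Fin 3)) ⊕ Bool where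
  toFun
    | .sym a => .inl (.inl a)
    | .st q i => .inl (.inr (q, i))
    | .lend => .inr false
    | .rend => .inr true
  invFun
    | .inl (.inl a) => .sym a
    | .inl (.inr (q, i)) => .st q i
    | .inr false => .lend
    | .inr true => .rend
  left_inv x := by cases x <;> rfl
  right_inv x := by
    rcases x with (a | ⟨q, i⟩) | (_ | _) <;> rfl

instance [Finite Γ] [Finite Q] : Finite (Letter Γ Q) := Finite.of_equiv _ Letter.equivSum.symm

/-- Is the letter a head? -/
def Letter.isSt : Letter Γ Q → Bool
  | .st _ _ => true
  | _ => false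

/-- Left neighbour of a head: a symbol or the left end marker. -/
def lft : Option Γ → Letter Γ Q
  | some a => .sym a
  | none => .lend

/-- Right neighbour of a head: a symbol or the right end marker. -/
def rgt : Option Γ → Letter Γ Q
  | some a => .sym a
  | none => .rend

theorem lft_inj : Function.Injective (lft : Option Γ → Letter Γ Q) := by
  intro a b h
  cases a <;> cases b <;> simp_all [lft]

theorem rgt_inj : Function.Injective (rgt : Option Γ → Letter Γ Q) := by
  intro a b h
  cases a <;> cases b <;> simp_all [rgt]

variable [Inhabited Γ] (δ : Q → Γ → Option (Q × TM0.Stmt Γ)) (h : Bool)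

/-- The replacement for the window `c, (q, i), x`. -/
def nxt (c : Option Γ) (q : Q) (i : Fin 3) (x : Option Γ) : Option (List (Letter Γ Q)) :=
  match i with
  | 0 => some [lft c, .st q 1, rgt x]
  | 1 => some [lft c, .st q 2, rgt x]
  | 2 =>
    match x with
    | none => some [lft c, .st q 0, .sym default, .rend]
    | some a =>
      match δ q a with
      | none => if h then some [lft c, .st q 0, .sym a] else none
      | some (q', .write b) => some [lft c, .st q' 0, .sym b]
      | some (q', .move .right) => some [lft c, .sym a, .st q' 0]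
      | some (q', .move .left) =>
        match c with
        | some c' => some [.st q' 0, .sym c', .sym a]
        | none => some [.lend, .st q' 0, .sym default, .sym a]

/-- Configurations: the reversed left part of the tape, the state, the phase, the right part. -/
structure Conf (Γ Q : Type) where
  L : List Γ
  q : Q
  i : Fin 3
  R : List Γ

/-- One step of the simulation. -/
def tstep : Conf Γ Q → Option (Conf Γ Q)
  | ⟨L, q, 0, R⟩ => some ⟨L, q, 1, R⟩
  | ⟨L, q, 1, R⟩ => some ⟨L, q, 2, R⟩
  | ⟨L, q, 2, []⟩ => some ⟨L, q, 0, [default]⟩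
  | ⟨L, q, 2, a :: R⟩ =>
    match δ q a with
    | none => if h then some ⟨L, q, 0, a :: R⟩ else none
    | some (q', .write b) => some ⟨L, q', 0, b :: R⟩
    | some (q', .move .right) => some ⟨a :: L, q', 0, R⟩
    | some (q', .move .left) =>
      match L with
      | c :: L' => some ⟨L', q', 0, c :: a :: R⟩
      | [] => some ⟨[], q', 0, default :: a :: R⟩

/-- The word of letters of a configuration. -/
def word (c : Conf Γ Q) : List (Letter Γ Q) :=
  .lend :: (c.L.reverse.map .sym ++ .st c.q c.i :: (c.R.map .sym ++ [.rend]))

/-- Left context and left neighbour. -/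
def cl : List Γ → List (Letter Γ Q) × Option Γ
  | [] => ([], none)
  | l :: L => (.lend :: L.reverse.map .sym, some l)

/-- Right neighbour and right context. -/
def cr : List Γ → Option Γ × List (Letter Γ Q)
  | [] => (none, [])
  | r :: R => (some r, R.map .sym ++ [.rend])

omit [Inhabited Γ] in
theorem cl_spec (L : List Γ) :
    (Letter.lend :: L.reverse.map Letter.sym : List (Letter Γ Q))
      = (cl L).1 ++ [lft (cl (Q := Q) L).2] := by
  cases L <;> simp [cl, lft]

omit [Inhabited Γ] in
theorem cr_spec (R : List Γ) :
    (R.map Letter.sym ++ [Letter.rend] : List (Letter Γ Q)) = rgt (cr (Q := Q) R).1 :: (cr R).2 := by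
  cases R <;> simp [cr, rgt]

omit [Inhabited Γ] in
theorem word_eq (L : List Γ) (q : Q) (i : Fin 3) (R : List Γ) :
    word ⟨L, q, i, R⟩ = (cl L).1 ++ [lft (cl (Q := Q) L).2, .st q i, rgt (cr (Q := Q) R).1]
      ++ (cr R).2 := by
  unfold word
  simp only
  rw [cr_spec, ← List.cons_append, cl_spec]
  simp

theorem nxt_tstep (L : List Γ) (q : Q) (i : Fin 3) (R : List Γ) :
    (nxt δ h (cl (Q := Q) L).2 q i (cr (Q := Q) R).1).map (fun v => (cl L).1 ++ v ++ (cr R).2)
      = (tstep δ h ⟨L, q, i, R⟩).map word := by
  match i with
  | 0 => simp only [nxt, tstep, Option.map_some, word_eq]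
  | 1 => simp only [nxt, tstep, Option.map_some, word_eq]
  | 2 =>
    cases R with
    | nil => cases L <;> simp [nxt, tstep, cr, cl, word, lft]
    | cons a R =>
      simp only [nxt, tstep, cr]
      rcases hδ : δ q a with _ | ⟨q', (⟨⟨⟩⟩ | b)⟩
      · cases h <;> cases L <;> simp [cl, word, lft]
      · cases L <;> simp [cl, word]
      · cases L <;> simp [cl, word, lft]
      · cases L <;> simp [cl, word, lft]

/-! ### The presentation -/

section

variable {β : Type} (e : Letter Γ Q ≃ β)

/-- The window `c, (q, i), x`. -/
def win (c : Option Γ) (q : Q) (i : Fin 3) (x : Option Γ) : List (Letter Γ Q) :=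
  [lft c, .st q i, rgt x]

/-- The set of relations. -/
def relSet : Set (List β × List β) :=
  {r | ∃ c q i x v, nxt δ h c q i x = some v ∧ r = ((win c q i x).map e, v.map e)}

theorem relSet_finite [Finite Γ] [Finite Q] : (relSet δ h e).Finite := by
  have : relSet δ h e ⊆ Set.range (fun t : Option Γ × Q × Fin 3 × Option Γ =>
      ((win t.1 t.2.1 t.2.2.1 t.2.2.2).map e,
        ((nxt δ h t.1 t.2.1 t.2.2.1 t.2.2.2).getD []).map e)) := by
    rintro r ⟨c, q, i, x, v, hv, rfl⟩
    exact ⟨(c, q, i, x), by simp [hv]⟩
  exact (Set.finite_range _).subset this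

theorem nxt_ne_nil {c : Option Γ} {q : Q} {i : Fin 3} {x : Option Γ} {v : List (Letter Γ Q)}
    (hv : nxt δ h c q i x = some v) : v.countP Letter.isSt = 1 := by
  match i with
  | 0 =>
    simp only [nxt, Option.some.injEq] at hv
    subst hv
    cases c <;> cases x <;> simp [lft, rgt, Letter.isSt, List.countP_cons]
  | 1 =>
    simp only [nxt, Option.some.injEq] at hv
    subst hv
    cases c <;> cases x <;> simp [lft, rgt, Letter.isSt, List.countP_cons]
  | 2 =>
    cases x with
    | none =>
      simp only [nxt, Option.some.injEq] at hv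
      subst hv
      cases c <;> simp [lft, Letter.isSt, List.countP_cons]
    | some a =>
      simp only [nxt] at hv
      rcases hδ : δ q a with _ | ⟨q', (⟨⟨⟩⟩ | b)⟩
      · rw [hδ] at hv
        cases h
        · simp at hv
        · simp only [if_true, Option.some.injEq] at hv
          subst hv
          cases c <;> simp [lft, Letter.isSt, List.countP_cons]
      · rw [hδ] at hv
        cases c with
        | none =>
          replace hv := Option.some.inj hv
          subst hv
          simp [Letter.isSt, List.countP_cons]
        | some c =>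
          replace hv := Option.some.inj hv
          subst hv
          simp [Letter.isSt, List.countP_cons]
      · rw [hδ] at hv
        simp only [Option.some.injEq] at hv
        subst hv
        cases c <;> simp [lft, Letter.isSt, List.countP_cons]
      · rw [hδ] at hv
        simp only [Option.some.injEq] at hv
        subst hv
        cases c <;> simp [lft, Letter.isSt, List.countP_cons]

/-- The presentation simulating the machine `δ`; the flag `h` adds, at every halting situation, a
relation closing a directed cycle of length three. -/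
noncomputable def pres [Finite Γ] [Finite Q] : Presentation β where
  rels := (relSet_finite δ h e).toFinset
  left_ne := by
    intro r hr
    rw [Set.Finite.mem_toFinset] at hr
    obtain ⟨c, q, i, x, v, hv, rfl⟩ := hr
    simp [win]
  right_ne := by
    intro r hr
    rw [Set.Finite.mem_toFinset] at hr
    obtain ⟨c, q, i, x, v, hv, rfl⟩ := hr
    have := nxt_ne_nil δ h hv
    intro h0
    simp only [List.map_eq_nil_iff] at h0
    subst h0
    simp at this

/-- Heads among the letters of `β`. -/
def hd (b : β) : Bool := (e.symm b).isSt

omit [Inhabited Γ] in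
theorem countP_map_e (l : List (Letter Γ Q)) : (l.map e).countP (hd e) = l.countP Letter.isSt := by
  rw [List.countP_map]
  congr 1
  funext x
  simp [hd]

omit [Inhabited Γ] in
theorem split_unique (p : β → Bool) : ∀ (u u' : List β) (s s' : β) (v v' : List β),
    p s = true → p s' = true → u.countP p = 0 → u'.countP p = 0 →
    u ++ s :: v = u' ++ s' :: v' → u = u' ∧ s = s' ∧ v = v'
  | [], [], s, s', v, v', _, _, _, _, h => by simpa using h
  | [], x :: u', s, s', v, v', hs, _, _, hu', h => by
    simp only [List.nil_append, List.cons_append, List.cons.injEq] at h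
    obtain ⟨rfl, _⟩ := h
    rw [List.countP_cons_of_pos hs] at hu'
    omega
  | x :: u, [], s, s', v, v', _, hs', hu, _, h => by
    simp only [List.nil_append, List.cons_append, List.cons.injEq] at h
    obtain ⟨rfl, _⟩ := h
    rw [List.countP_cons_of_pos hs'] at hu
    omega
  | x :: u, y :: u', s, s', v, v', hs, hs', hu, hu', h => by
    simp only [List.cons_append, List.cons.injEq] at h
    obtain ⟨rfl, h⟩ := h
    rw [List.countP_cons] at hu hu'
    obtain ⟨rfl, rfl, rfl⟩ := split_unique p u u' s s' v v' hs hs' (by omega) (by omega) h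
    exact ⟨rfl, rfl, rfl⟩

omit [Inhabited Γ] in
theorem window_unique {a a' : List β} {c c' : Option Γ} {q q' : Q} {i i' : Fin 3}
    {x x' : Option Γ} {b b' : List β}
    (heq : a ++ (win c q i x).map e ++ b = a' ++ (win c' q' i' x').map e ++ b')
    (hc : (a ++ (win c q i x).map e ++ b).countP (hd e) = 1) :
    a = a' ∧ c = c' ∧ q = q' ∧ i = i' ∧ x = x' ∧ b = b' := by
  have hc' := hc
  rw [heq] at hc'
  have hlw : ∀ c : Option Γ, hd e (e (lft c)) = false := by
    intro c; cases c <;> simp [hd, lft, Letter.isSt]
  have hrw : ∀ c : Option Γ, hd e (e (rgt c)) = false := by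
    intro c; cases c <;> simp [hd, rgt, Letter.isSt]
  have hst : ∀ q i, hd e (e (.st q i)) = true := by
    intro q i; simp [hd, Letter.isSt]
  simp only [win, List.map_cons, List.map_nil, List.countP_append, List.countP_cons, List.countP_nil,
    hlw, hrw, hst] at hc hc'
  simp only [Bool.false_eq_true, if_false, if_true] at hc hc'
  have key := split_unique (hd e) (a ++ [e (lft c)]) (a' ++ [e (lft c')]) (e (.st q i))
    (e (.st q' i')) (e (rgt x) :: b) (e (rgt x') :: b') (hst _ _) (hst _ _)
    (by simp [List.countP_append, hlw]; intro y hy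
        have := List.countP_eq_zero.1 (show a.countP (hd e) = 0 by omega) y hy
        simpa using this)
    (by simp [List.countP_append, hlw]; intro y hy
        have := List.countP_eq_zero.1 (show a'.countP (hd e) = 0 by omega) y hy
        simpa using this)
    (by simpa [win] using heq)
  obtain ⟨h1, h2, h3⟩ := key
  have h4 := List.append_inj' h1 rfl
  simp only [List.cons.injEq, and_true] at h4
  have h5 : (Letter.st q i : Letter Γ Q) = .st q' i' := e.injective h2
  simp only [Letter.st.injEq] at h5
  simp only [List.cons.injEq] at h3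
  exact ⟨h4.1, lft_inj (e.injective h4.2), h5.1, h5.2, rgt_inj (e.injective h3.1), h3.2⟩

theorem pres_oneHead [Finite Γ] [Finite Q] : OneHead (pres δ h e) (hd e) where
  left := by
    intro r hr
    rw [pres, Set.Finite.mem_toFinset] at hr
    obtain ⟨c, q, i, x, v, hv, rfl⟩ := hr
    simp only [countP_map_e]
    cases c <;> cases x <;> simp [win, lft, rgt, Letter.isSt, List.countP_cons]
  right := by
    intro r hr
    rw [pres, Set.Finite.mem_toFinset] at hr
    obtain ⟨c, q, i, x, v, hv, rfl⟩ := hr
    simp only [countP_map_e]
    exact nxt_ne_nil δ h hv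
  det := by
    intro a r b a' r' b' hr hr' heq hc
    rw [pres, Set.Finite.mem_toFinset] at hr hr'
    obtain ⟨c, q, i, x, v, hv, rfl⟩ := hr
    obtain ⟨c', q', i', x', v', hv', rfl⟩ := hr'
    obtain ⟨rfl, rfl, rfl, rfl, rfl, rfl⟩ := window_unique e heq hc
    rw [hv] at hv'
    obtain rfl := Option.some.inj hv'
    exact ⟨rfl, rfl, rfl⟩

/-- The vertex of a configuration. -/
def vert [Finite Γ] [Finite Q] (c : Conf Γ Q) : Vertex (pres δ h e) :=
  ⟨(word c).map e, by simp [word]⟩

omit [Inhabited Γ] in
theorem countP_word (c : Conf Γ Q) : ((word c).map e).countP (hd e) = 1 := by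
  rw [countP_map_e, word]
  have h0 : ∀ l : List Γ, (l.map (Letter.sym : Γ → Letter Γ Q)).countP Letter.isSt = 0 := by
    intro l
    rw [List.countP_eq_zero]
    intro x hx
    obtain ⟨a, _, rfl⟩ := List.mem_map.1 hx
    simp [Letter.isSt]
  rw [List.countP_cons, List.countP_append, List.countP_cons, List.countP_append, h0, h0]
  simp [Letter.isSt, List.countP_cons]

theorem step_vert [Finite Γ] [Finite Q] (c : Conf Γ Q) (y : Vertex (pres δ h e)) :
    Step (pres δ h e) (vert δ h e c) y ↔ ∃ c', tstep δ h c = some c' ∧ y = vert δ h e c' := by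
  obtain ⟨L, q, i, R⟩ := c
  constructor
  · rintro ⟨a, r, b, mem, src, tgt⟩
    rw [pres, Set.Finite.mem_toFinset] at mem
    obtain ⟨c, q', i', x, v, hv, rfl⟩ := mem
    simp only [vert] at src
    have hcount := countP_word e ⟨L, q, i, R⟩
    rw [word_eq, List.map_append, List.map_append] at src hcount
    obtain ⟨rfl, rfl, rfl, rfl, rfl, rfl⟩ := window_unique e src hcount
    have hk := nxt_tstep δ h L q i R
    rw [hv, Option.map_some] at hk
    rcases hts : tstep δ h ⟨L, q, i, R⟩ with _ | c'
    · rw [hts] at hk; simp at hk
    · rw [hts, Option.map_some, Option.some.injEq] at hk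
      refine ⟨c', rfl, Subtype.ext ?_⟩
      rw [tgt]
      simp only [vert]
      rw [← hk, List.map_append, List.map_append]
  · rintro ⟨c', hc', rfl⟩
    have hk := nxt_tstep δ h L q i R
    rw [hc', Option.map_some] at hk
    rcases hn : nxt δ h (cl (Q := Q) L).2 q i (cr (Q := Q) R).1 with _ | v
    · rw [hn] at hk; simp at hk
    · rw [hn, Option.map_some, Option.some.injEq] at hk
      refine ⟨⟨(cl L).1.map e, ((win (cl (Q := Q) L).2 q i (cr (Q := Q) R).1).map e, v.map e),
        (cr R).2.map e, ?_, ?_, ?_⟩⟩
      · rw [pres, Set.Finite.mem_toFinset]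
        exact ⟨_, _, _, _, _, hn, rfl⟩
      · simp only [vert]
        rw [word_eq, List.map_append, List.map_append]
        rfl
      · simp only [vert]
        rw [← hk, List.map_append, List.map_append]

end

end

end Pool.Agent.Lib.MP_6c430b_al
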