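import Pool.Agent.Lib.MP_6c430b_al.Halt

/-!
# A universal Turing machine with unary-looking inputs
-/

set_option autoImplicit false

namespace Pool.Agent.Lib.MP_6c430b_al

open Turing StateTransition

/-! ### A universal code -/

/-- On input `2 ^ n`, run the `n`-th partial recursive code on input `0`. -/
def univ (m : ℕ) : Part ℕ :=
  (Nat.rfind fun k => Part.some (decide (2 ^ k = m))).bind fun k =>
    Nat.Partrec.Code.eval (Denumerable.ofNat Nat.Partrec.Code k) 0

theorem primrec_two_pow : Primrec (fun k : ℕ => 2 ^ k) := by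
  have : Primrec (fun k : ℕ => Nat.rec (motive := fun _ => ℕ) 1 (fun _ y => 2 * y) k) :=
    Primrec.nat_rec₁ 1 (Primrec.nat_mul.comp (Primrec.const 2) Primrec.snd)
  refine this.of_eq fun k => ?_
  induction k with
  | zero => rfl
  | succ k ih => simp only [pow_succ, mul_comm, ← ih]

theorem univ_partrec : Partrec univ := by
  have h1 : Computable₂ (fun (m k : ℕ) => decide (2 ^ k = m)) := by
    have : PrimrecRel (fun (m k : ℕ) => 2 ^ k = m) :=
      Primrec.eq.comp (primrec_two_pow.comp Primrec.snd) Primrec.fst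
    exact this.decide.to_comp
  have h2 : Partrec (fun m : ℕ => Nat.rfind fun k => Part.some (decide (2 ^ k = m))) :=
    Partrec.rfind (p := fun (m k : ℕ) => Part.some (decide (2 ^ k = m))) h1.partrec₂
  have h3 : Partrec₂ (fun (_ : ℕ) (k : ℕ) =>
      Nat.Partrec.Code.eval (Denumerable.ofNat Nat.Partrec.Code k) 0) :=
    Nat.Partrec.Code.eval_part.comp ((Computable.ofNat _).comp Computable.snd)
      (Computable.const 0)
  exact h2.bind h3

theorem univ_dom (n : ℕ) : (univ (2 ^ n)).Dom ↔
    (Nat.Partrec.Code.eval (Denumerable.ofNat Nat.Partrec.Code n) 0).Dom := by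
  have : (Nat.rfind fun k => Part.some (decide (2 ^ k = 2 ^ n))) = Part.some n := by
    refine Part.eq_some_iff.2 (Nat.mem_rfind.2 ⟨?_, ?_⟩)
    · exact Part.mem_some_iff.2 (by simp)
    · intro m hm
      refine Part.mem_some_iff.2 ?_
      have : (2 : ℕ) ^ m ≠ 2 ^ n := fun h => by
        have := Nat.pow_right_injective (le_refl 2) h
        omega
      simp [this]
  rw [univ, this, Part.bind_some]

theorem exists_universal : ∃ U : ToPartrec.Code, ∀ n : ℕ,
    (U.eval [2 ^ n]).Dom ↔
      (Nat.Partrec.Code.eval (Denumerable.ofNat Nat.Partrec.Code n) 0).Dom := by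
  obtain ⟨U, hU⟩ := ToPartrec.Code.exists_code (Nat.Partrec'.part_iff₁.2 univ_partrec)
  refine ⟨U, fun n => ?_⟩
  have := hU ⟨[2 ^ n], rfl⟩
  change U.eval [2 ^ n] = pure <$> univ (2 ^ n) at this
  rw [this, ← univ_dom]
  rfl

/-! ### The stack machine -/

section

open PartrecToTM2

theorem trPosNum_two_pow (n : ℕ) : ∃ p : PosNum, ((2 ^ n : ℕ) : Num) = Num.pos p ∧
    trPosNum p = List.replicate n Γ'.bit0 ++ [Γ'.bit1] := by
  induction n with
  | zero => exact ⟨PosNum.one, rfl, rfl⟩
  | succ n ih =>
    obtain ⟨p, hp, hl⟩ := ih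
    refine ⟨PosNum.bit0 p, ?_, ?_⟩
    · rw [pow_succ, mul_two, Nat.cast_add, hp, Num.bit0_of_bit0]
      rfl
    · rw [trPosNum, hl, List.replicate_succ]
      rfl

theorem trList_two_pow (n : ℕ) :
    trList [2 ^ n] = List.replicate n Γ'.bit0 ++ [Γ'.bit1, Γ'.cons] := by
  obtain ⟨p, hp, hl⟩ := trPosNum_two_pow n
  rw [trList, trList, trNat, hp, trNum, hl]
  simp

theorem stack_dom (U : ToPartrec.Code) (v : List ℕ) :
    (@TM2.eval K' (fun _ => Γ') Λ' (Option Γ') ⟨trNormal U Cont'.halt⟩ _ _ tr K'.main
      (trList v)).Dom ↔ (U.eval v).Dom := by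
  have h1 := tr_eval U v
  have h2 : (@TM2.init K' (fun _ => Γ') Λ' (Option Γ') ⟨trNormal U Cont'.halt⟩ _ _ K'.main
      (trList v)) = init U v := by
    unfold TM2.init init
    congr 1
    funext k
    cases k <;> rfl
  unfold TM2.eval
  rw [Part.map_Dom, h2, h1]
  rfl

end

/-! ### A finite Turing machine -/

theorem restrict {Γ Λ : Type} [Inhabited Γ] [Inhabited Λ] (M : TM0.Machine Γ Λ) (S : Finset Λ)
    (hS : TM0.Supports M (S : Set Λ)) :
    ∃ (Q : Type) (_ : Finite Q) (_ : Inhabited Q) (δ : TM0.Machine Γ Q),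
      ∀ l, (TM0.eval δ l).Dom ↔ (TM0.eval M l).Dom := by
  classical
  let d : {q // q ∈ S} := ⟨default, by simpa using hS.1⟩
  let _ : Inhabited {q // q ∈ S} := ⟨d⟩
  refine ⟨{q // q ∈ S}, inferInstance, inferInstance,
    M.map ⟨id, rfl⟩ ⟨id, rfl⟩ (fun q => if h : q ∈ S then ⟨q, h⟩ else d) Subtype.val, fun l => ?_⟩
  have hd : (default : Λ) ∈ S := by simpa using hS.1
  let g : PointedMap Λ {q // q ∈ S} :=
    ⟨fun q => if h : q ∈ S then ⟨q, h⟩ else d, by simp only [dif_pos hd]; rfl⟩
  have hr := TM0.Machine.map_respects M (⟨id, rfl⟩ : PointedMap Γ Γ) ⟨id, rfl⟩ g Subtype.val hS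
    (fun _ => rfl) (fun q hq => by
      have hq' : q ∈ S := hq
      show (g q).1 = q
      simp only [g]
      rw [dif_pos hq'])
  have hi : (default : Λ) ∈ (S : Set Λ) ∧
      TM0.Cfg.map (⟨id, rfl⟩ : PointedMap Γ Γ) g (TM0.init l) = TM0.init l := by
    refine ⟨hS.1, ?_⟩
    rw [TM0.map_init]
    simp
  have := tr_eval_dom hr (a₁ := TM0.init l) (a₂ := TM0.init l) hi
  unfold TM0.eval
  rw [Part.map_Dom, Part.map_Dom]
  exact this

/-- Starting the simulation on the initial configuration. -/
theorem conf_dom {Γ Q : Type} [Inhabited Γ] [Inhabited Q] (δ : TM0.Machine Γ Q) (x : Γ)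
    (R : List Γ) :
    (eval (tstep δ false) ⟨[], default, 2, x :: R⟩).Dom ↔ (TM0.eval δ (x :: R)).Dom := by
  have hr := respects (Q := Q) δ
  have := tr_eval_dom hr (a₁ := TM0.init (x :: R)) (a₂ := ⟨[], default, 2, x :: R⟩)
    ⟨[], default, x, R, rfl, rfl⟩
  unfold TM0.eval
  rw [Part.map_Dom]
  exact this

/-- There is a finite Turing machine and symbols `A`, `B`, `C` such that the machine halts on the
input `A B C ... C` (with `n` letters `C`) if and only if the `n`-th partial recursive code halts on
input `0`. -/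
theorem exists_machine : ∃ (Γ Q : Type) (_ : Finite Γ) (_ : Finite Q) (_ : Inhabited Γ)
    (δ : Q → Γ → Option (Q × TM0.Stmt Γ)) (q₀ : Q) (A B C : Γ), ∀ n : ℕ,
      (eval (tstep δ false) ⟨[], q₀, 2, A :: B :: List.replicate n C⟩).Dom ↔
        (Nat.Partrec.Code.eval (Denumerable.ofNat Nat.Partrec.Code n) 0).Dom := by
  obtain ⟨U, hU⟩ := exists_universal
  let _ : Inhabited PartrecToTM2.Λ' :=
    ⟨PartrecToTM2.trNormal U PartrecToTM2.Cont'.halt⟩
  have s2 := PartrecToTM2.tr_supports U PartrecToTM2.Cont'.halt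
  have s1 := TM2to1.tr_supports PartrecToTM2.tr s2
  have s0 := TM1to0.tr_supports (TM2to1.tr PartrecToTM2.tr) s1
  obtain ⟨Q, hQ, hQ', δ, hδ⟩ := restrict _ _ s0
  let f : PartrecToTM2.Γ' → TM2to1.Γ' PartrecToTM2.K' (fun _ => PartrecToTM2.Γ') :=
    fun a => (false, Function.update (fun _ => none) PartrecToTM2.K'.main (some a))
  have hK : Finite PartrecToTM2.K' := by
    refine Finite.of_injective (β := Fin 4) (fun k => match k with
      | .main => 0
      | .rev => 1
      | .aux => 2
      | .stack => 3) ?_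
    intro a b hab
    cases a <;> cases b <;> first | rfl | (exact absurd hab (by decide))
  have hΓ : Finite (TM2to1.Γ' PartrecToTM2.K' (fun _ => PartrecToTM2.Γ')) :=
    inferInstanceAs (Finite (Bool × (PartrecToTM2.K' → Option PartrecToTM2.Γ')))
  refine ⟨TM2to1.Γ' PartrecToTM2.K' (fun _ => PartrecToTM2.Γ'), Q, hΓ, hQ,
    inferInstance, δ, default, (true, (f PartrecToTM2.Γ'.cons).2), f PartrecToTM2.Γ'.bit1,
    f PartrecToTM2.Γ'.bit0, fun n => ?_⟩
  have h1 : TM2to1.trInit (K := PartrecToTM2.K') (Γ := fun _ => PartrecToTM2.Γ')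
      PartrecToTM2.K'.main (PartrecToTM2.trList [2 ^ n]) =
      (true, (f PartrecToTM2.Γ'.cons).2) :: f PartrecToTM2.Γ'.bit1 ::
        List.replicate n (f PartrecToTM2.Γ'.bit0) := by
    have h2 : (PartrecToTM2.trList [2 ^ n]).reverse = PartrecToTM2.Γ'.cons ::
        PartrecToTM2.Γ'.bit1 :: List.replicate n PartrecToTM2.Γ'.bit0 := by
      rw [trList_two_pow]; simp
    unfold TM2to1.trInit
    rw [h2]
    change _ :: f PartrecToTM2.Γ'.bit1 :: List.map f (List.replicate n PartrecToTM2.Γ'.bit0) = _
    rw [List.map_replicate]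
    rfl
  have h3 := TM2to1.tr_eval_dom PartrecToTM2.tr PartrecToTM2.K'.main
    (PartrecToTM2.trList [2 ^ n])
  rw [h1] at h3
  have h4 := congrArg Part.Dom (TM1to0.tr_eval (TM2to1.tr PartrecToTM2.tr)
    ((true, (f PartrecToTM2.Γ'.cons).2) :: f PartrecToTM2.Γ'.bit1 ::
        List.replicate n (f PartrecToTM2.Γ'.bit0)))
  exact (conf_dom δ _ _).trans ((hδ _).trans ((iff_of_eq h4).trans
    (h3.trans ((stack_dom U _).trans (hU n)))))

/-! ### Undecidability -/

theorem computable_replicate {β : Type} [Primcodable β] (x : β) :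
    Computable (fun n : ℕ => List.replicate n x) := by
  have : Primrec (fun n : ℕ =>
      Nat.rec (motive := fun _ => List β) [] (fun _ y => x :: y) n) :=
    Primrec.nat_rec₁ [] (Primrec.list_cons.comp (Primrec.const x) Primrec.snd)
  refine (this.of_eq fun n => ?_).to_comp
  induction n with
  | zero => rfl
  | succ n ih => rw [List.replicate_succ, ← ih]

/-- The phase of a head. -/
def phase {Γ Q : Type} : Letter Γ Q → Option (Fin 3)
  | .st _ i => some i
  | _ => none

theorem relations_asymm {Γ Q : Type} [Inhabited Γ] [Finite Γ] [Finite Q]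
    (δ : Q → Γ → Option (Q × TM0.Stmt Γ)) (h : Bool) {β : Type} (e : Letter Γ Q ≃ β) :
    ∀ r ∈ (pres δ h e).rels, r.1 ≠ r.2 ∧ (r.2, r.1) ∉ (pres δ h e).rels := by
  have hwin : ∀ (c : Option Γ) (q : Q) (i : Fin 3) (x : Option Γ),
      ((win c q i x).filterMap phase) = [i] := by
    intro c q i x
    cases c <;> cases x <;> rfl
  have hnxt : ∀ (c : Option Γ) (q : Q) (i : Fin 3) (x : Option Γ) (v : List (Letter Γ Q)),
      nxt δ h c q i x = some v → v.filterMap phase = [i + 1] := by
    intro c q i x v hv
    match i with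
    | 0 =>
      simp only [nxt, Option.some.injEq] at hv
      subst hv
      cases c <;> cases x <;> rfl
    | 1 =>
      simp only [nxt, Option.some.injEq] at hv
      subst hv
      cases c <;> cases x <;> rfl
    | 2 =>
      cases x with
      | none =>
        simp only [nxt, Option.some.injEq] at hv
        subst hv
        cases c <;> rfl
      | some a =>
        simp only [nxt] at hv
        rcases hδ : δ q a with _ | ⟨q', (⟨⟨⟩⟩ | b)⟩
        · rw [hδ] at hv
          cases h
          · simp at hv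
          · simp only [if_true, Option.some.injEq] at hv
            subst hv
            cases c <;> rfl
        · rw [hδ] at hv
          cases c with
          | none =>
            replace hv := Option.some.inj hv
            subst hv
            rfl
          | some c =>
            replace hv := Option.some.inj hv
            subst hv
            rfl
        · rw [hδ] at hv
          simp only [Option.some.injEq] at hv
          subst hv
          cases c <;> rfl
        · rw [hδ] at hv
          simp only [Option.some.injEq] at hv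
          subst hv
          cases c <;> rfl
  intro r hr
  rw [pres, Set.Finite.mem_toFinset] at hr
  obtain ⟨c, q, i, x, v, hv, rfl⟩ := hr
  have h1 := hwin c q i x
  have h2 := hnxt c q i x v hv
  constructor
  · intro heq
    have heq' := List.map_injective_iff.2 e.injective heq
    rw [heq', h2] at h1
    simp only [List.cons.injEq, and_true] at h1
    exact absurd h1 ((by decide : ∀ i : Fin 3, i + 1 ≠ i) i)
  · intro hr'
    rw [pres, Set.Finite.mem_toFinset] at hr'
    obtain ⟨c', q', i', x', v', hv', heq⟩ := hr'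
    simp only [Prod.mk.injEq] at heq
    have e1 := List.map_injective_iff.2 e.injective heq.1
    have e2 := List.map_injective_iff.2 e.injective heq.2
    have h3 := hwin c' q' i' x'
    have h4 := hnxt c' q' i' x' v' hv'
    rw [← e1, h2] at h3
    rw [← e2, h1] at h4
    simp only [List.cons.injEq, and_true] at h3 h4
    rw [← h3] at h4
    exact absurd h4 ((by decide : ∀ i : Fin 3, i ≠ i + 1 + 1) i)

/-- There is a finite presentation over which the non-triviality of diagram groups is
undecidable. -/
theorem main : ∃ (N : ℕ) (P : Presentation (Fin N)),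
    (∀ r ∈ P.rels, r.1 ≠ r.2 ∧ (r.2, r.1) ∉ P.rels) ∧
    ¬ ∃ f : List (Fin N) → Bool, Computable f ∧
      ∀ w : Vertex P, (f w.1 = true ↔ Nontrivial (DiagramGroup P w)) := by
  obtain ⟨Γ, Q, hΓ, hQ, hΓ', δ, q₀, A, B, C, hM⟩ := exists_machine
  obtain ⟨N, ⟨e⟩⟩ := Finite.exists_equiv_fin (Letter Γ Q)
  by_contra hcon
  push Not at hcon
  obtain ⟨f₁, hf₁, hf₁'⟩ := hcon N (pres δ true e) (relations_asymm δ true e)
  obtain ⟨f₀, hf₀, hf₀'⟩ := hcon N (pres δ false e) (relations_asymm δ false e)
  let w : ℕ → List (Fin N) := fun n =>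
    (word (⟨[], q₀, 2, A :: B :: List.replicate n C⟩ : Conf Γ Q)).map e
  have hw : Computable w := by
    have : Computable (fun n : ℕ => e .lend :: e (.st q₀ 2) :: e (.sym A) :: e (.sym B) ::
        (List.replicate n (e (.sym C)) ++ [e .rend])) := by
      refine Computable.list_cons.comp (Computable.const _) ?_
      refine Computable.list_cons.comp (Computable.const _) ?_
      refine Computable.list_cons.comp (Computable.const _) ?_
      refine Computable.list_cons.comp (Computable.const _) ?_
      exact Computable.list_append.comp (computable_replicate _) (Computable.const _)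
    refine this.of_eq fun n => ?_
    simp [w, word]
  have hg : Computable (fun n => f₁ (w n) && !(f₀ (w n))) :=
    Primrec.and.to_comp.comp (hf₁.comp hw) (Primrec.not.to_comp.comp (hf₀.comp hw))
  have key : ∀ n, ((f₁ (w n) && !(f₀ (w n))) = true ↔
      (Nat.Partrec.Code.eval (Denumerable.ofNat Nat.Partrec.Code n) 0).Dom) := by
    intro n
    rw [← hM n, halts_iff_nontrivial δ e, ← hf₁', ← hf₀']
    simp [w, vert]
  refine ComputablePred.halting_problem 0 (ComputablePred.computable_iff.2
    ⟨fun c => f₁ (w (Encodable.encode c)) && !(f₀ (w (Encodable.encode c))),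
      hg.comp Computable.encode, ?_⟩)
  funext c
  have := key (Encodable.encode c)
  rw [Denumerable.ofNat_encode] at this
  exact (propext this).symm

end Pool.Agent.Lib.MP_6c430b_al
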